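import Pool.Agent.N569.AB.Mirror

set_option autoImplicit false

/-!
# The normalised bracket detects the unknot among regular arborescent links, with inserted tangles

Library used:

* `Pool.Agent.H891R2.Jones`: `Diagram P` is an oriented link diagram with marked points `P`,
  `D.fPoly` its normalised Kauffman bracket `(-A ^ (-3)) ^ w(D) ⟨D⟩`, `A = T 1`;
* `Pool.Agent.H891R2.MT.Orients D U`: `D` is the unoriented diagram `U` with some directions;
* `Pool.Agent.H891R2.RF.Outer4`: a diagram `S` of a 2-tangle, with four corners;
  `S.close v`: the corners are joined in pairs (`v = false`: the two lower ones and the two upper ones;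
  `v = true`: the two left ones and the two right ones);
* `Pool.Agent.R811.Abc`: `IsTangle S`: in every state the corners are joined in pairs, horizontally or
  vertically, by two different curves; `alpha S`: the coefficient of the two horizontal strands in the
  bracket of `S`; `brV S`: the bracket of `S.close true`;
* `Pool.Agent.N569.AB` (`Defs`, `Mirror`):
  - `Tree`: weighted plane rooted trees, some subtrees of which may be replaced by arbitrary 2-tangles
    `S`; `t.tangle`: the sum of a row of `|a|` crossings, `a` the weight of the root, of the tangles of
    the subtrees, each turned by a quarter turn, and of the inserted tangles; `t.link`: the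
    (arborescent) link of the tree, `t.tangle.close false` (every arborescent (Conway algebraic) link
    is the link of a tree without inserted tangles);
  - `t.deg`: the weight of the root plus the number of its children `c` with `c.deg < 0` (and of the
    inserted tangles with `τ = true`); `t.kids`: the number of the children; `t.Plain`: no tangles
    are inserted; `t.mirror`: the tree with the opposite weights;
  - `Kid τ x y`: `x = u A ^ m (1 + b A ^ 4 + c A ^ 8 + ⋯)` and
    `y = (-1) ^ τ u A ^ (m - 4 τ) (1 + b' A ^ 4 + c' A ^ 8 + ⋯)` with `u = ± 1`, `b ≤ -1`, `b' ≤ 0`, and
    `b = -1`, `c' = 1` if `b' = 0`;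
  - `t.Regular`: for every vertex `c` apart from the root `deg c ≥ 2`, or `deg c ≤ -1` and `c` is not a
    leaf of weight `-1`; the inserted `S` satisfy `IsTangle S` and `Kid τ (alpha S) (brV S)`;
  - `t.RootOk`: `deg t ≥ 2`, or `deg t = 0` and the root has at least two children, or `deg t ≤ -1` and
    `t` is not a single vertex of weight `-1`.

So, given the subtrees, at most two values of the weight of a vertex are excluded, and weights of both
signs may be mixed in an arbitrary way: no condition of alternation, adequacy or domination is made.
-/

namespace Pool.Agent.Results.MP_42db45_gt.ArborescentLinks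

open LaurentPolynomial Pool.Agent.H891R2.Jones Pool.Agent.H891R2.MT Pool.Agent.H891R2.RF
open Pool.Agent.N569.AB

/-- **The normalised bracket of a regular arborescent link with inserted tangles is not the one of an
unlink.** Let `t` be a weighted plane tree, some subtrees of which may be replaced by arbitrary
2-tangles with the condition `Kid`, and suppose that `t` is regular, or that no tangles are inserted and
the mirror image of `t` is regular. Then the normalised bracket of the link of `t`, with any
orientation, is not `1`, and it is not a unit `± A ^ n` times a power of `d = - A ^ 2 - A ^ (-2)`. -/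
theorem result (t : Tree) (D : Diagram t.tangle.P) (hD : Orients D t.link)
    (h : (t.Regular ∧ t.RootOk) ∨ (t.Plain ∧ t.mirror.Regular ∧ t.mirror.RootOk)) :
    D.fPoly ≠ 1 ∧ ∀ (ε n : ℤ) (j : ℕ), (ε = 1 ∨ ε = -1) →
      D.fPoly ≠ C ε * T n * (-T 2 - T (-2)) ^ j := by
  have key : ∀ (ε n : ℤ) (j : ℕ), (ε = 1 ∨ ε = -1) →
      D.fPoly ≠ C ε * T n * (-T 2 - T (-2)) ^ j :=
    fun ε n j hε => not_unlink t D hD h ε n hε j
  refine ⟨fun h1 => key 1 0 0 (Or.inl rfl) ?_, key⟩
  rw [h1, map_one, one_mul, T_zero, pow_zero, mul_one]

end Pool.Agent.Results.MP_42db45_gt.ArborescentLinks
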