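import Pool.Agent.U963.JN.Main

/-!
# Pure braids which the Jones polynomial modulo `N (A^{4m} - 1)^n` and the Vassiliev invariants do not see

Link diagrams (starting library `Pool.Agent.H891R2.Jones.Diagram`): `Diagram.fPoly` is the normalised
bracket `(-A^{-3})^{w(D)} ⟨D⟩` (with `A = T 1`), `Outer 4` the part of an oriented link diagram outside a box
through which four strands with arbitrary directions run.  Braid words (starting library): `Letter 4` are the
letters `σ_1^{±1}, σ_2^{±1}, σ_3^{±1}`, `IsPure w` says that the permutation of the strands is trivial,
`dia O w` is the diagram with the braid word `w` in the box of `O`, and `braidClosure 4` is the outside for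
the usual closure of braids.

Sliced diagrams (starting library `Pool.Agent.H835R2.Knot.Defs`): `Word` (lists of maxima, minima and
crossings, from top to bottom), `IsKnot`, `IsInvariant v` (`v` is invariant under planar isotopy and the
Reidemeister moves), `DegreeLE d v` (`v` is a Vassiliev invariant of degree at most `d`), `circle`.

New definitions (`Pool.Agent.U963.JN.Defs`):
* `tail`: the word `σ_1 σ_2 σ_3`; its closure is a diagram of the unknot;
* `InvisibleMod J w`: inserting `w` in four strands of any link diagram (before any word `v` in a box)
  does not change the normalised bracket modulo the ideal `J`;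
* `strip j w`: the crossings of `w` on the strands `j, …, j + 3` of a sliced diagram;
* `InvisibleVas d w`: inserting `w` in any four neighbouring strands of any sliced knot diagram gives
  a knot diagram, and no Vassiliev invariant of degree at most `d` changes its value;
* `closure w`: the sliced diagram of the closure of `w`;
* `Values J d`: the normalised brackets `f` of the closures of the words `w σ_1 σ_2 σ_3`, where `w` is pure
  and has these two properties, the closure is a knot with the Vassiliev invariants of the unknot up to
  degree `d`, and `f - 1 ∈ J`.

Proof.  The matrices of three words `g_2, g_3, g_5` (commutators of pure braid words) in the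
Temperley-Lieb algebra on four strands are congruent to `1` modulo `2`, `3` and `5` (checked at the powers
of an integer `A = 2^k`, by Kronecker substitution), `(σ_1 σ_2)^6` is congruent to a scalar modulo `A^8 - 1`
and `σ_1^{2m}` modulo `A^{8m} - 1`.  Powers and nested commutators multiply the moduli and the orders of
contact with the Vassiliev filtration.  The nested commutators have closures with non-trivial polynomials by
a computation modulo `11` at `A = 3`, where the exponents can be chosen in arithmetic progressions, and
since the polynomial is an algebraic function of `A^{-8m}` for the exponent `2m` of `σ_1`.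
-/

set_option autoImplicit false

namespace Pool.Agent.Results.MP_42db45_gt.InvisibleBraids

open LaurentPolynomial Pool.Agent.U963.JN

/-- Let `N ≥ 1` be an integer without prime factors other than `2, 3, 5`, and let `n, d ≥ 0`.

* For every `m ≥ 1` there are infinitely many Laurent polynomials `f ≡ 1` modulo `N (A^{4m} - 1)^n` which are
  the normalised brackets of knots `w σ_1 σ_2 σ_3`, closed braids on four strands, where `w` is a pure braid
  word: the word `w` can be inserted into any link diagram without changing its normalised bracket modulo
  `N (A^{4m} - 1)^n`, and into any knot diagram without changing any Vassiliev invariant of degree at most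
  `d`, and the closure of `w σ_1 σ_2 σ_3` is a knot which has the same Vassiliev invariants of degree at most
  `d` as the unknot.
* For every ideal `I` of finite index in `ℤ[A, A⁻¹]` the same holds with the modulus `N I^n`. -/
theorem result (N : ℕ) (hN0 : N ≠ 0) (hN : ∀ p : ℕ, p.Prime → p ∣ N → p ≤ 5) (n d : ℕ) : 
    (∀ m : ℕ, 0 < m → (Values (Ideal.span {(N : ℤ[T;T⁻¹]) * (T (4 * m) - 1) ^ n}) d).Infinite) ∧ 
    (∀ I : Ideal ℤ[T;T⁻¹], Finite (ℤ[T;T⁻¹] ⧸ I) → 
      (Values (Ideal.span {(N : ℤ[T;T⁻¹])} * I ^ n) d).Infinite) :=
  ⟨fun m hm => values_infinite N hN0 hN m n d hm, fun I hI => values_infinite' N hN0 hN I hI n d⟩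

end Pool.Agent.Results.MP_42db45_gt.InvisibleBraids
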