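import Pool.Agent.N569.TW.Cor

/-!
# The Jones polynomials of closed braids whose negative letters are paid by full twists

Diagrams (starting library `Pool.Agent.H891R2.Jones.Diagram`): `Diagram P` (oriented link diagrams),
`Diagram.fPoly` (the normalised bracket `(-A^{-3})^{w(D)} ⟨D⟩`), `Diagram.writhe`,
`Diagram.IsClosed` (the pieces of the diagram fit together to closed oriented curves).

Braid words (starting library `Pool.Agent.W639.RB.Defs`): `Letter m = Bool × Fin (m - 1)` (the letters
`σ_i^{±1}` of the braid group on `m` strands), `draw O w` (the word `w`, a list of pairs of a sign and a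
place, drawn in the box of `O`), `toL w` (a word `w : Fin l → Letter m` as a list), `braidClosure m` (the
outside of the box for the usual closure of braids on `m` strands); `(draw (braidClosure m) w).close` is
the diagram of the closure of the braid `w`.

`TW s n k a` (starting library `Pool.Agent.TH561.PB.State2`) is the braid word of `a` full twists of the
bundle of the `n` strands `k, …, k + n - 1`, positive ones for `s = true` and negative ones for
`s = false`; `dl = -A^2 - A^{-2}` is the value of a circle, so `dl ^ c` is the normalised bracket of the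
unlink with `c + 1` components.

`Tw` (starting library `Pool.Agent.N569.TW.Defs`) is the type of the braid words in which full twists on
bundles of neighbouring strands are marked, possibly nested: `box n k a u` is the word `u` followed by `a`
full twists of the `n` strands `k, …, k + n - 1`. `Tw.Fits t m 0`: `t` is a word on `m` strands, the inner
word of each box is on the strands of the box, and each box has at least three strands and at least one
twist. `Tw.debt t` is the number of the negative letters which are not paid for: `a` full twists on `n`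
strands pay for up to `n a` negative letters of the inner word of their box. `Tw.signed s t` is the word of
`t`, with all crossings changed if `s = false`.
-/

set_option autoImplicit false

namespace Pool.Agent.Results.MP_42db45_gt.PaidTwists

open Finset LaurentPolynomial Pool.Agent.H891R2.Jones Pool.Agent.W639.RB Pool.Agent.TH561
open Pool.Agent.N569.TW

/-- the braid word `w Δ^{2a}`: the word `w` on `m` strands followed by `|a|` full twists of all the
strands, positive ones for `a > 0` and negative ones for `a < 0` -/
def twistedWord {m l : ℕ} (w : Fin l → Letter m) (a : ℤ) : List (Bool × ℕ) :=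
  toL w ++ TW (decide (0 < a)) m 0 a.natAbs

/-- the diagram of the closure of the braid `w Δ^{2a}` has the normalised bracket of an unlink -/
def UnlinkPoly {m l : ℕ} (w : Fin l → Letter m) (a : ℤ) : Prop :=
  ∃ c : ℕ, (draw (braidClosure m) (twistedWord w a)).close.fPoly = dl ^ c

/-- the number of the letters with sign `s` -/
def letters {m l : ℕ} (w : Fin l → Letter m) (s : Bool) : ℕ := #{i | (w i).1 = s}

theorem letters_add {m l : ℕ} (w : Fin l → Letter m) : letters w true + letters w false = l := by
  unfold letters
  have h := Finset.card_filter_add_card_filter_not (s := (univ : Finset (Fin l)))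
    (p := fun i => (w i).1 = true)
  simp only [Finset.card_univ, Fintype.card_fin, Bool.not_eq_true] at h
  exact h

theorem letters_ne {m l : ℕ} (w : Fin l → Letter m) (s : Bool) :
    #{i | (w i).1 ≠ s} = letters w (!s) := by
  unfold letters
  congr 1
  ext i
  simp only [Finset.mem_filter, Finset.mem_univ, true_and]
  cases s <;> simp

/-- Let `m ≥ 1`.

(1) Let `t` be a braid word on `m` strands in which (nested) full twists on bundles of strands are
marked and all the negative letters of which are paid for by the twists (`a` full twists on `n` strands pay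
for `n a` negative letters in their box), and let `D` be the diagram of its closure (`s = true`) or the
mirror image (`s = false`). Then `D` is a closed oriented diagram, its writhe is `±` the exponent sum,
the coefficient of its normalised bracket in the degree `±(2 (m - 1) - 2 e)`, `e` the exponent sum, is
`1` or `-1`, and all coefficients beyond this degree vanish. If the normalised bracket is the one of the
unlink with `c + 1` components, then `t` is a word without boxes and without negative letters in which
every generator occurs at most once, and it has `m - c - 1` letters; so the diagram is the standard one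
of this unlink.

(2) If `t` and `t'` are two such words on `m` and `m'` strands whose closures (or whose mirror images) have
the same normalised bracket, then `m - e = m' - e'`.

(3) Let `m ≥ 3`, `a ≥ 1`, and let `w` be any braid word on `m` strands with at most `m a` letters of the
sign other than `s`. Then the closure `D` of `w Δ^{±2a}` (`±` the sign `s`) is a closed oriented diagram,
its writhe is the exponent sum, the coefficient of its normalised bracket in the degree
`±2 (m - 1) - 2 w(D)` is `1` or `-1`, all coefficients beyond this degree vanish, and the normalised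
bracket is not the one of an unlink. In the variable `t = A^{-4}` this says: for `s = true` the smallest
exponent of the Jones polynomial is `(w(D) - (m - 1)) / 2`, with coefficient `± 1`.

(4) Let `m ≥ 3` and let `w` be any braid word on `m` strands, with `P` positive and `Q` negative letters,
of length `l = P + Q`. All `a ∈ ℤ` for which the closure of `w Δ^{2a}` has the normalised bracket of an
unlink (for instance the bracket `1`) satisfy `a = 0` or `-P < m a < Q`; so there are at most `l / m + 1`
of them. For every Laurent polynomial `p` there are at most `l / m + 3` numbers `a ∈ ℤ` for which the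
closure of `w Δ^{2a}` has the normalised bracket `p`. -/
theorem result (m : ℕ) (hm : 1 ≤ m) :
    (∀ (s : Bool) (t : Tw), t.Fits m 0 → t.debt = 0 →
      (draw (braidClosure m) (t.signed s)).close.IsClosed ∧
      (draw (braidClosure m) (t.signed s)).close.writhe = (if s then 1 else -1) * expo t.word ∧
      ((draw (braidClosure m) (t.signed s)).close.fPoly.coeff
          ((if s then 1 else -1) * (2 * ((m : ℤ) - 1) - 2 * expo t.word)) = 1 ∨
        (draw (braidClosure m) (t.signed s)).close.fPoly.coeff
          ((if s then 1 else -1) * (2 * ((m : ℤ) - 1) - 2 * expo t.word)) = -1) ∧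
      (∀ n : ℤ, 2 * ((m : ℤ) - 1) - 2 * expo t.word < n →
        (draw (braidClosure m) (t.signed s)).close.fPoly.coeff ((if s then 1 else -1) * n) = 0) ∧
      ∀ c : ℕ, (draw (braidClosure m) (t.signed s)).close.fPoly = dl ^ c →
        t.boxes = 0 ∧ (∀ x ∈ t.word, x.1 = true) ∧ (t.word.map Prod.snd).Nodup ∧
          m = t.word.length + c + 1) ∧
    (∀ (s : Bool) (t : Tw), t.Fits m 0 → t.debt = 0 →
      ∀ (m' : ℕ) (t' : Tw), 1 ≤ m' → t'.Fits m' 0 → t'.debt = 0 →
      (draw (braidClosure m) (t.signed s)).close.fPoly =
        (draw (braidClosure m') (t'.signed s)).close.fPoly →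
      (m : ℤ) - expo t.word = m' - expo t'.word) ∧
    (3 ≤ m → ∀ (s : Bool) (a : ℕ), 1 ≤ a → ∀ (l : ℕ) (w : Fin l → Letter m),
      letters w (!s) ≤ m * a →
      ∀ D, D = (draw (braidClosure m) (toL w ++ TW s m 0 a)).close →
      D.IsClosed ∧
      D.writhe = (∑ i, (if (w i).1 then (1 : ℤ) else -1)) +
        (if s then 1 else -1) * (a * (m * (m - 1))) ∧
      (D.fPoly.coeff ((if s then 1 else -1) * (2 * ((m : ℤ) - 1)) - 2 * D.writhe) = 1 ∨
        D.fPoly.coeff ((if s then 1 else -1) * (2 * ((m : ℤ) - 1)) - 2 * D.writhe) = -1) ∧
      (∀ n : ℤ, 2 * ((m : ℤ) - 1) < n →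
        D.fPoly.coeff ((if s then 1 else -1) * n - 2 * D.writhe) = 0) ∧
      ∀ c : ℕ, D.fPoly ≠ dl ^ c) ∧
    (3 ≤ m → ∀ (l : ℕ) (w : Fin l → Letter m),
      letters w true + letters w false = l ∧
      (∀ a : ℤ, UnlinkPoly w a →
        a = 0 ∨ (-(letters w true : ℤ) < m * a ∧ m * a < (letters w false : ℤ))) ∧
      {a : ℤ | UnlinkPoly w a}.Finite ∧ {a : ℤ | UnlinkPoly w a}.ncard ≤ l / m + 1 ∧
      ∀ p : LaurentPolynomial ℤ,
        {a : ℤ | (draw (braidClosure m) (twistedWord w a)).close.fPoly = p}.Finite ∧
        {a : ℤ | (draw (braidClosure m) (twistedWord w a)).close.fPoly = p}.ncard ≤ l / m + 3) := by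
  have hm0 : 0 < m := hm
  have h1 := fun (s : Bool) (t : Tw) (ht : t.Fits m 0) (hd : t.debt = 0) => main hm0 s t ht hd
  have h4' : ∀ (s : Bool) (t : Tw), t.Fits m 0 → t.debt = 0 →
      ∀ (m' : ℕ) (t' : Tw), 1 ≤ m' → t'.Fits m' 0 → t'.debt = 0 →
      (draw (braidClosure m) (t.signed s)).close.fPoly =
        (draw (braidClosure m') (t'.signed s)).close.fPoly →
      (m : ℤ) - expo t.word = m' - expo t'.word := by
    intro s t ht hd m' t' hm' ht' hd' heq
    obtain ⟨-, -, g3, g4, -⟩ := h1 s t ht hd
    obtain ⟨-, -, k3, k4, -⟩ := main (show 0 < m' from hm') s t' ht' hd'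
    rw [heq] at g3 g4
    have e1 : ¬ 2 * ((m : ℤ) - 1) - 2 * expo t.word < 2 * ((m' : ℤ) - 1) - 2 * expo t'.word := by
      intro hlt
      have := g4 _ hlt
      rcases k3 with k | k <;> rw [this] at k <;> norm_num at k
    have e2 : ¬ 2 * ((m' : ℤ) - 1) - 2 * expo t'.word < 2 * ((m : ℤ) - 1) - 2 * expo t.word := by
      intro hlt
      have := k4 _ hlt
      rcases g3 with k | k <;> rw [this] at k <;> norm_num at k
    linarith
  have h2 : 3 ≤ m → ∀ (s : Bool) (a : ℕ), 1 ≤ a → ∀ (l : ℕ) (w : Fin l → Letter m),
      letters w (!s) ≤ m * a →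
      ∀ D, D = (draw (braidClosure m) (toL w ++ TW s m 0 a)).close →
      D.IsClosed ∧
      D.writhe = (∑ i, (if (w i).1 then (1 : ℤ) else -1)) +
        (if s then 1 else -1) * (a * (m * (m - 1))) ∧
      (D.fPoly.coeff ((if s then 1 else -1) * (2 * ((m : ℤ) - 1)) - 2 * D.writhe) = 1 ∨
        D.fPoly.coeff ((if s then 1 else -1) * (2 * ((m : ℤ) - 1)) - 2 * D.writhe) = -1) ∧
      (∀ n : ℤ, 2 * ((m : ℤ) - 1) < n →
        D.fPoly.coeff ((if s then 1 else -1) * n - 2 * D.writhe) = 0) ∧
      ∀ c : ℕ, D.fPoly ≠ dl ^ c := by
    intro hm3 s a ha l w hq D hD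
    rw [← letters_ne] at hq
    obtain ⟨t, ht, hd, hw, hb, he⟩ := braid_case hm3 s a ha l w hq
    obtain ⟨g1, g2, g3, g4, g5⟩ := h1 s t ht hd
    subst hD
    rw [hw] at g1 g2 g3 g4 g5
    refine ⟨g1, ?_, ?_, ?_, ?_⟩
    · rw [g2, he]
      rfl
    · rw [g2]
      have e : (if s then (1 : ℤ) else -1) * (2 * ((m : ℤ) - 1)) - 2 * (eps s * expo t.word) =
          eps s * (2 * ((m : ℤ) - 1) - 2 * expo t.word) := by
        unfold eps; ring
      rw [e]
      exact g3
    · intro n hn
      rw [g2]
      have e : (if s then (1 : ℤ) else -1) * n - 2 * (eps s * expo t.word) =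
          eps s * (n - 2 * expo t.word) := by
        unfold eps; ring
      rw [e]
      exact g4 _ (by linarith)
    · intro c hc
      have := (g5 c hc).1
      omega
  refine ⟨h1, h4', h2, fun hm3 l w => ?_⟩
  have hmpos : (0 : ℤ) < m := by exact_mod_cast hm0
  -- the closures in the two outer ranges have different brackets
  have uniq : ∀ (s : Bool) (a b : ℕ), 1 ≤ a → 1 ≤ b → letters w (!s) ≤ m * a →
      letters w (!s) ≤ m * b →
      (draw (braidClosure m) (toL w ++ TW s m 0 a)).close.fPoly =
        (draw (braidClosure m) (toL w ++ TW s m 0 b)).close.fPoly → a = b := by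
    intro s a b ha hb hqa hqb heq
    obtain ⟨-, ga, g3, g4, -⟩ := h2 hm3 s a ha l w hqa _ rfl
    obtain ⟨-, gb, k3, k4, -⟩ := h2 hm3 s b hb l w hqb _ rfl
    rw [heq] at g3 g4
    rw [ga] at g3 g4
    rw [gb] at k3 k4
    have hmm : (0 : ℤ) < m * (m - 1) := by
      apply mul_pos hmpos
      have : (3 : ℤ) ≤ m := by exact_mod_cast hm3
      linarith
    set S : ℤ := ∑ i, (if (w i).1 then (1 : ℤ) else -1) with hS
    set M : ℤ := (m : ℤ) * (m - 1) with hM
    rcases lt_trichotomy a b with hab | hab | hab
    · -- `D_b` has the smaller (for `s = true`) degree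
      exfalso
      have hab' : (a : ℤ) * M < b * M := mul_lt_mul_of_pos_right (by exact_mod_cast hab) hmm
      have hz := k4 (2 * ((m : ℤ) - 1) + 2 * (b * M - a * M)) (by linarith)
      have e : (if s then (1 : ℤ) else -1) * (2 * ((m : ℤ) - 1) + 2 * (b * M - a * M)) -
          2 * (S + (if s then 1 else -1) * (b * M)) =
          (if s then (1 : ℤ) else -1) * (2 * ((m : ℤ) - 1)) -
          2 * (S + (if s then 1 else -1) * (a * M)) := by ring
      rw [e] at hz
      rcases g3 with k | k <;> rw [hz] at k <;> norm_num at k
    · exact hab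
    · exfalso
      have hab' : (b : ℤ) * M < a * M := mul_lt_mul_of_pos_right (by exact_mod_cast hab) hmm
      have hz := g4 (2 * ((m : ℤ) - 1) + 2 * (a * M - b * M)) (by linarith)
      have e : (if s then (1 : ℤ) else -1) * (2 * ((m : ℤ) - 1) + 2 * (a * M - b * M)) -
          2 * (S + (if s then 1 else -1) * (a * M)) =
          (if s then (1 : ℤ) else -1) * (2 * ((m : ℤ) - 1)) -
          2 * (S + (if s then 1 else -1) * (b * M)) := by ring
      rw [e] at hz
      rcases k3 with k | k <;> rw [hz] at k <;> norm_num at k
  -- the inner range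
  have inner : ∀ a : ℤ, ¬ (0 < a ∧ letters w false ≤ m * a.natAbs) →
      ¬ (a < 0 ∧ letters w true ≤ m * a.natAbs) →
      a = 0 ∨ (-(letters w true : ℤ) < m * a ∧ m * a < (letters w false : ℤ)) := by
    intro a hn1 hn2
    by_cases ha0 : a = 0
    · exact Or.inl ha0
    right
    have habs : ((a.natAbs : ℕ) : ℤ) = |a| := Int.natCast_natAbs a
    have h5 : (0 : ℤ) ≤ letters w false := by positivity
    have h6 : (0 : ℤ) ≤ letters w true := by positivity
    rcases lt_or_gt_of_ne ha0 with hneg | hpos
    · have hlt : m * a.natAbs < letters w true := by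
        by_contra hge
        exact hn2 ⟨hneg, not_lt.mp hge⟩
      have hlt' : (m : ℤ) * |a| < (letters w true : ℤ) := by
        rw [← habs]
        exact_mod_cast hlt
      rw [abs_of_neg hneg] at hlt'
      have h4 : (m : ℤ) * a < 0 := mul_neg_of_pos_of_neg hmpos hneg
      constructor
      · linarith
      · linarith
    · have hlt : m * a.natAbs < letters w false := by
        by_contra hge
        exact hn1 ⟨hpos, not_lt.mp hge⟩
      have hlt' : (m : ℤ) * |a| < (letters w false : ℤ) := by
        rw [← habs]
        exact_mod_cast hlt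
      rw [abs_of_pos hpos] at hlt'
      have h4 : 0 < (m : ℤ) * a := mul_pos hmpos hpos
      constructor
      · linarith
      · linarith
  have wordpos : ∀ a : ℤ, 0 < a → twistedWord w a = toL w ++ TW true m 0 a.natAbs := by
    intro a ha
    unfold twistedWord
    rw [decide_eq_true ha]
  have wordneg : ∀ a : ℤ, a < 0 → twistedWord w a = toL w ++ TW false m 0 a.natAbs := by
    intro a ha
    unfold twistedWord
    rw [decide_eq_false (by omega : ¬ 0 < a)]
  have key : ∀ a : ℤ, UnlinkPoly w a →
      a = 0 ∨ (-(letters w true : ℤ) < m * a ∧ m * a < (letters w false : ℤ)) := by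
    intro a ha
    obtain ⟨c, hc⟩ := ha
    apply inner
    · rintro ⟨hpos, hQ⟩
      have h6 := h2 hm3 true a.natAbs (by omega) l w (by simpa using hQ) _ rfl
      apply h6.2.2.2.2 c
      rw [← hc, wordpos a hpos]
    · rintro ⟨hneg, hP⟩
      have h6 := h2 hm3 false a.natAbs (by omega) l w (by simpa using hP) _ rfl
      apply h6.2.2.2.2 c
      rw [← hc, wordneg a hneg]
  set I : Finset ℤ :=
    Finset.Icc (-((letters w true / m : ℕ) : ℤ)) ((letters w false / m : ℕ) : ℤ) with hI
  have inI : ∀ a : ℤ, a = 0 ∨ (-(letters w true : ℤ) < m * a ∧ m * a < (letters w false : ℤ)) →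
      a ∈ I := by
    intro a ha
    rw [hI, Finset.mem_Icc]
    rcases ha with h | ⟨h3, h4⟩
    · subst h
      constructor
      · have : (0 : ℤ) ≤ ((letters w true / m : ℕ) : ℤ) := by positivity
        linarith
      · positivity
    · constructor
      · have : -a ≤ ((letters w true / m : ℕ) : ℤ) := by
          rw [Int.natCast_div]
          exact Int.le_ediv_of_mul_le hmpos (by nlinarith)
        linarith
      · rw [Int.natCast_div]
        exact Int.le_ediv_of_mul_le hmpos (by nlinarith)
  have cardI : I.card ≤ l / m + 1 := by
    have e1 : I.card = letters w true / m + letters w false / m + 1 := by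
      rw [hI, Int.card_Icc]
      generalize letters w true / m = x
      generalize letters w false / m = y
      omega
    have := Nat.div_add_div_le_add_div (x := letters w true) (y := letters w false) (z := m)
    rw [letters_add w] at this
    generalize letters w true / m = x at *
    generalize letters w false / m = y at *
    generalize l / m = z at *
    omega
  have hsub : {a : ℤ | UnlinkPoly w a} ⊆ (I : Set ℤ) := fun a ha => inI a (key a ha)
  refine ⟨letters_add w, key, (Finset.finite_toSet _).subset hsub, ?_, fun p => ?_⟩
  · calc {a : ℤ | UnlinkPoly w a}.ncard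
        ≤ (I : Set ℤ).ncard := Set.ncard_le_ncard hsub (Finset.finite_toSet _)
      _ = I.card := Set.ncard_coe_finset I
      _ ≤ l / m + 1 := cardI
  · set X : Set ℤ := {a : ℤ | (draw (braidClosure m) (twistedWord w a)).close.fPoly = p} with hX
    set Y1 : Set ℤ := {a : ℤ | a ∈ X ∧ 0 < a ∧ letters w false ≤ m * a.natAbs} with hY1
    set Y2 : Set ℤ := {a : ℤ | a ∈ X ∧ a < 0 ∧ letters w true ≤ m * a.natAbs} with hY2
    have sub1 : Y1.Subsingleton := by
      rintro a ⟨haX, ha, hqa⟩ b ⟨hbX, hb, hqb⟩
      have := uniq true a.natAbs b.natAbs (by omega) (by omega) (by simpa using hqa)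
        (by simpa using hqb) (by
          rw [← wordpos a ha, ← wordpos b hb]
          exact Eq.trans haX (Eq.symm hbX))
      omega
    have sub2 : Y2.Subsingleton := by
      rintro a ⟨haX, ha, hqa⟩ b ⟨hbX, hb, hqb⟩
      have := uniq false a.natAbs b.natAbs (by omega) (by omega) (by simpa using hqa)
        (by simpa using hqb) (by
          rw [← wordneg a ha, ← wordneg b hb]
          exact Eq.trans haX (Eq.symm hbX))
      omega
    have hXsub : X ⊆ ((I : Set ℤ) ∪ Y1) ∪ Y2 := by
      intro a ha
      by_cases h1 : 0 < a ∧ letters w false ≤ m * a.natAbs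
      · exact Or.inl (Or.inr ⟨ha, h1⟩)
      · by_cases h2 : a < 0 ∧ letters w true ≤ m * a.natAbs
        · exact Or.inr ⟨ha, h2⟩
        · exact Or.inl (Or.inl (inI a (inner a h1 h2)))
    have fin : (((I : Set ℤ) ∪ Y1) ∪ Y2).Finite :=
      ((Finset.finite_toSet _).union sub1.finite).union sub2.finite
    refine ⟨fin.subset hXsub, ?_⟩
    have c1 : Y1.ncard ≤ 1 := by
      rcases sub1.eq_empty_or_singleton with h | ⟨x, h⟩
      · rw [h]; simp
      · rw [h]; simp
    have c2 : Y2.ncard ≤ 1 := by
      rcases sub2.eq_empty_or_singleton with h | ⟨x, h⟩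
      · rw [h]; simp
      · rw [h]; simp
    calc X.ncard ≤ (((I : Set ℤ) ∪ Y1) ∪ Y2).ncard := Set.ncard_le_ncard hXsub fin
      _ ≤ ((I : Set ℤ) ∪ Y1).ncard + Y2.ncard := Set.ncard_union_le _ _
      _ ≤ (I : Set ℤ).ncard + Y1.ncard + Y2.ncard := by
          have := Set.ncard_union_le (I : Set ℤ) Y1
          omega
      _ ≤ l / m + 3 := by
          rw [Set.ncard_coe_finset]
          omega

end Pool.Agent.Results.MP_42db45_gt.PaidTwists

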