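import Pool.Agent.U963.AR.Main

/-!
# Non-trivial knots whose Jones polynomial is close to `1` on the arc `|arg t| ≤ 2π/3`

Link diagrams (starting library `Pool.Agent.H891R2.Jones.Diagram`): `Diagram.fPoly` is the normalised
bracket `f = (-A^{-3})^{w(D)} ⟨D⟩ ∈ ℤ[A, A⁻¹]` (with `A = T 1`), `Outer 3` the part of an oriented link diagram
outside a box through which three strands with arbitrary directions run.  Braid words (starting library):
`Letter 3` are the letters `σ_1^{±1}, σ_2^{±1}`, `IsPure w` says that the permutation of the strands is trivial,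
`dia O w` is the diagram with the braid word `w` in the box of `O`, and `braidClosure 3` is the outside for
the usual closure of braids.

Sliced diagrams (starting library `Pool.Agent.H835R2.Knot.Defs`): `Word` (lists of maxima, minima and
crossings, from top to bottom), `IsKnot`, `IsInvariant v` (`v` is invariant under planar isotopy and the
Reidemeister moves), `DegreeLE d v` (`v` is a Vassiliev invariant of degree at most `d`), `circle`.

New definitions (`Pool.Agent.U963.AR.Defs`):
* `value φ f`: the value of the Laurent polynomial `f` at `A = e^{iφ}`;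
* `tail`: the word `σ_2 σ_1`; its closure is a diagram of the unknot;
* `strip j w`: the crossings of `w` on the strands `j, j + 1, j + 2` of a sliced diagram;
* `InvisibleVas d w`: inserting `w` in any three neighbouring strands of any sliced knot diagram gives
  a knot diagram, and no Vassiliev invariant of degree at most `d` changes its value;
* `closure w`: the sliced diagram of the closure of `w`.

The arc `|φ| ≤ π/6` is the arc `|arg t| ≤ 2π/3` of the variable `t = A^{-4}` of the Jones polynomial
`V(t) = f`.  It contains the roots of unity `t = e^{± 2π i / r}`, `r ≥ 3`, of the quantum invariants.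

Proof.  For `|φ| ≤ π/6` the two-dimensional representation of the braid group on three strands is unitary.
We start with `w_0 = [g, h]`, `g = σ_1 σ_2⁻³ σ_1² σ_2⁻³ σ_1`, `h = σ_2² σ_1⁻¹ σ_2³ σ_1⁻¹ σ_2²`, for which
`2 - tr(w_0) = s⁴ (s - 1)² (2 - s)³` with `s = y² - y`, `y = t + t⁻¹`, so that the distance of `w_0` from the
identity is less than `1/2` on the whole arc, and take commutators `w_{k+1} = [w_k, x w_k x⁻¹]` with a generator
`x`.  The distance from the identity is squared (times two) in each step, uniformly on the arc.  At `t = -1`
the representation is the map to `SL_2(ℤ)`, and there the commutators remain non-trivial for one of the two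
generators `x`, and `f ≠ 1` for one of four conjugates of the word.
-/

set_option autoImplicit false

namespace Pool.Agent.Results.MP_42db45_gt.UnitaryArc

open LaurentPolynomial Pool.Agent.H891R2.Jones Pool.Agent.W639.RB Pool.Agent.Y463.SK
open Pool.Agent.H835R2.Knot (Word IsKnot IsInvariant DegreeLE circle)
open Pool.Agent.U963.AR

/-- There are pure braid words `W 0, W 1, W 2, …` on three strands, `W k` of length at most `160 · 4^k`, with the
following properties.

* No link diagram sees them in the limit: for every link diagram with a box for three strands, every word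
  `v` and every `φ₀ < π/6`, the insertion of `W k` (before `v`) changes the value of the normalised bracket at
  `A = e^{iφ}`, `|φ| ≤ φ₀`, by at most `C (8/9)^(3 · 2^k)`, where `C` does not depend on `k` and `φ`.
* The closure of `W k σ_2 σ_1` is a knot with `f ≠ 1`, and `|f(e^{iφ}) - 1| ≤ (8/9)^(3 · 2^k)` for all
  `|φ| ≤ π/6`.
* The insertion of `W k` into a knot diagram does not change the Vassiliev invariants of degree less than
  `2^(k+1)`, and the closure of `W k σ_2 σ_1` has the same Vassiliev invariants of these degrees as the unknot.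

Conversely, if `f ≠ 1` is a Laurent polynomial with integral coefficients, then `|f(e^{iφ}) - 1| ≥ 1` for some
real number `φ`. -/
theorem result : 
    (∃ W : ℕ → List (Letter 3), 
      (∀ k, IsPure (W k) ∧ (W k).length ≤ 160 * 4 ^ k ∧ InvisibleVas (2 ^ (k + 1) - 1) (W k) ∧ 
        IsKnot (closure (W k ++ tail)) ∧ 
        (∀ (G : Type) [AddCommGroup G] (v : Word → G), IsInvariant v → DegreeLE (2 ^ (k + 1) - 1) v → 
          v (closure (W k ++ tail)) = v circle) ∧
        (dia (braidClosure 3) (W k ++ tail)).fPoly ≠ 1 ∧
        ∀ φ : ℝ, |φ| ≤ Real.pi / 6 → 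
          ‖value φ (dia (braidClosure 3) (W k ++ tail)).fPoly - 1‖ ≤ (8 / 9) ^ (3 * 2 ^ k)) ∧ 
      ∀ (O : Outer 3) (v : List (Letter 3)) (φ₀ : ℝ), φ₀ < Real.pi / 6 → ∃ C : ℝ, ∀ (k : ℕ) (φ : ℝ), |φ| ≤ φ₀ → 
        ‖value φ (dia O (W k ++ v)).fPoly - value φ (dia O v).fPoly‖ ≤ C * (8 / 9) ^ (3 * 2 ^ k)) ∧
    ∀ f : ℤ[T;T⁻¹], f ≠ 1 → ∃ φ : ℝ, 1 ≤ ‖value φ f - 1‖ := by
  refine ⟨exists_words, fun f hf => ?_⟩
  obtain ⟨φ, h⟩ := sharp (f - 1) (sub_ne_zero.2 hf)
  refine ⟨φ, ?_⟩
  rwa [map_sub, map_one] at h

end Pool.Agent.Results.MP_42db45_gt.UnitaryArc
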